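import Pool.Agent.Helper19_RFK.Stmts

/-!
# Squad RFK, module UPP (helper20): upper bound for the energy of a truncated potential
-/

set_option autoImplicit false

open MeasureTheory Set Pool.Agent.Helper19_LogPot

namespace Pool.Agent.RFK.H20

theorem ball_ae_closedBall (r : ℝ) :
    (Metric.ball (0 : ℂ) r : Set ℂ) =ᵐ[volume] Metric.closedBall (0 : ℂ) r :=
  ae_eq_of_subset_of_measure_ge Metric.ball_subset_closedBall
    (Measure.addHaar_closedBall_eq_addHaar_ball _ _ _).le
    Metric.isOpen_ball.measurableSet.nullMeasurableSet measure_closedBall_lt_top.ne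

theorem lap_cont {p : ℂ → ℝ} (hp : Continuous p) (r : ℝ) : Continuous (lap r p) := by
  have h1 : lap r p = fun x => ∫ h in Metric.closedBall (0 : ℂ) r, (p (x + h) - p x) := by
    funext x
    exact setIntegral_congr_set (ball_ae_closedBall r)
  rw [h1]
  apply continuous_parametric_integral_of_continuous _ (isCompact_closedBall (0 : ℂ) r)
  change Continuous (fun z : ℂ × ℂ => p (z.1 + z.2) - p z.1)
  fun_prop

theorem lap_int {p : ℂ → ℝ} (hp : Continuous p) (r : ℝ) (x : ℂ) :
    IntegrableOn (fun h => p (x + h) - p x) (Metric.ball (0 : ℂ) r) := by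
  have hc : Continuous (fun h => p (x + h) - p x) := by fun_prop
  exact (hc.continuousOn.integrableOn_compact (isCompact_closedBall (0 : ℂ) r)).mono_set
    Metric.ball_subset_closedBall

theorem adm_mul_int {L : NNReal} {ρ : ℝ} {g : ℂ → ℝ} (h : Adm L ρ g) {k : ℂ → ℝ}
    (hk : Continuous k) : Integrable (fun x => g x * k x) := by
  apply (h.lip.continuous.mul hk).integrable_of_hasCompactSupport
  apply HasCompactSupport.intro (isCompact_closedBall (0 : ℂ) ρ)
  intro x hx
  have h1 : ρ ≤ ‖x‖ := by
    rw [Metric.mem_closedBall, dist_zero_right, not_le] at hx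
    exact hx.le
  change g x * k x = 0
  rw [h.supp x h1, zero_mul]

theorem upp (hreg : RegStmt) (hcnv : CnvStmt) : UppStmt := by
  intro E u a c Λ L ρ hE hEb hu hc heq hφ0 hφΛ hadm r hr
  have hP : Continuous (pot E u) := hreg E u hE hEb hu
  set P : ℂ → ℝ := pot E u with hPdef
  set g : ℂ → ℝ := fun x => max (Λ - (a + P x)) 0 with hg
  have hgc : Continuous g := hadm.lip.continuous
  have hu0 : ∀ᵐ x ∂(volume.restrict E), 0 ≤ u x := by
    filter_upwards [heq] with x hx
    have h1 : 0 ≤ c * u x := by rw [hx]; exact hφ0 x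
    exact nonneg_of_mul_nonneg_right h1 hc
  have hcn := hcnv E u L ρ g hE hEb hu hadm hu0 r hr
  rw [abs_le] at hcn
  -- the pointwise inequality
  have hpt : ∀ x, -(g x * lap r g x) ≤ g x * lap r P x := by
    intro x
    have hgx := hadm.nonneg x
    rcases hgx.eq_or_lt with h0 | h0
    · have h1 : g x = 0 := h0.symm
      rw [h1]; simp
    · have h1 : g x = Λ - (a + P x) := by
        have h2 : g x = max (Λ - (a + P x)) 0 := rfl
        rcases le_total (Λ - (a + P x)) 0 with h3 | h3
        · rw [h2, max_eq_right h3] at h0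
          exact absurd h0 (lt_irrefl _)
        · rw [h2, max_eq_left h3]
      have h2 : -lap r P x ≤ lap r g x := by
        unfold lap
        rw [← integral_neg]
        apply integral_mono (lap_int hP r x).neg (lap_int hgc r x)
        intro h
        have h3 : Λ - (a + P (x + h)) ≤ g (x + h) := le_max_left _ _
        change -(P (x + h) - P x) ≤ g (x + h) - g x
        rw [h1]
        linarith
      have h3 : g x * (-lap r P x) ≤ g x * lap r g x := mul_le_mul_of_nonneg_left h2 h0.le
      linarith
  have hen : ener r g g ≤ ∫ x, g x * lap r P x := by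
    unfold ener
    rw [← integral_neg]
    exact integral_mono (adm_mul_int hadm (lap_cont hgc r)).neg
      (adm_mul_int hadm (lap_cont hP r)) hpt
  -- the integral over `E`
  have hEfin : volume E ≠ ⊤ := hEb.measure_lt_top.ne
  haveI : IsFiniteMeasure (volume.restrict E) := ⟨by
    rw [Measure.restrict_apply_univ]
    exact hEb.measure_lt_top⟩
  have hui : IntegrableOn u E := hu.integrable (by norm_num)
  have hgb : ∃ M : ℝ, ∀ x, |g x| ≤ M := by
    have hcomp : HasCompactSupport g := by
      apply HasCompactSupport.intro (isCompact_closedBall (0 : ℂ) ρ)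
      intro x hx
      apply hadm.supp x
      rw [Metric.mem_closedBall, dist_zero_right, not_le] at hx
      exact hx.le
    obtain ⟨M, hM⟩ := hgc.bounded_above_of_compact_support hcomp
    exact ⟨M, hM⟩
  obtain ⟨M, hM⟩ := hgb
  have hugi : IntegrableOn (fun x => u x * g x) E := by
    apply Integrable.mul_bdd (c := M) hui hgc.aestronglyMeasurable
    exact Filter.Eventually.of_forall fun x => hM x
  have hsq : (∫ x in E, (Λ - g x) ^ 2) = c * (Λ * (∫ x in E, u x) - ∫ x in E, u x * g x) := by
    have h1 : (∫ x in E, (Λ - g x) ^ 2) = ∫ x in E, c * (Λ * u x - u x * g x) := by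
      apply setIntegral_congr_ae hE
      have h2 := (ae_restrict_iff' hE).1 heq
      filter_upwards [h2] with x hx hxE
      have h3 := hx hxE
      have h4 : g x = Λ - (a + P x) := max_eq_left (by linarith [hφΛ x hxE])
      have h5 : Λ - g x = c * u x := by rw [h4, h3]; ring
      calc (Λ - g x) ^ 2 = (c * u x) * (Λ - g x) := by rw [← h5]; ring
        _ = _ := by ring
    rw [h1, integral_const_mul, integral_sub (hui.const_mul Λ) hugi, integral_const_mul]
  have hfin : Nr r / c * ∫ x in E, (Λ - g x) ^ 2 =
      Nr r * (Λ * (∫ x in E, u x) - ∫ x in E, u x * g x) := by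
    rw [hsq]
    field_simp
  rw [hfin]
  have hcn2 := hcn.2
  nlinarith [hen, hcn2]

end Pool.Agent.RFK.H20
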