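import Pool.Agent.Helper19_RFK.Stmts

/-!
# Squad RFK, module BATH (helper20): bathtub principle
-/

set_option autoImplicit false

open MeasureTheory Set Pool.Agent.Helper19_LogPot

namespace Pool.Agent.RFK.H20

theorem adm_cont {L : NNReal} {ρ : ℝ} {g : ℂ → ℝ} (h : Adm L ρ g) : Continuous g :=
  h.lip.continuous

theorem adm_comp {L : NNReal} {ρ : ℝ} {g : ℂ → ℝ} (h : Adm L ρ g) {ψ : ℝ → ℝ}
    (hψ : Continuous ψ) (h0 : ψ 0 = 0) : Integrable (fun x => ψ (g x)) := by
  apply (hψ.comp (adm_cont h)).integrable_of_hasCompactSupport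
  apply HasCompactSupport.intro (isCompact_closedBall (0 : ℂ) ρ)
  intro x hx
  have h1 : ρ ≤ ‖x‖ := by
    rw [Metric.mem_closedBall, dist_zero_right, not_le] at hx
    exact hx.le
  change ψ (g x) = 0
  rw [h.supp x h1, h0]

theorem bath : BathStmt := by
  intro L ρ Λ R g f E hg hf heq hmon hgΛ hE hR hvol
  have hΛ : 0 ≤ Λ := (hg.nonneg 0).trans (hgΛ 0)
  -- `f ≤ Λ`
  have hfΛ : ∀ x, f x ≤ Λ := by
    have hψc : Continuous (fun v : ℝ => max (v - Λ) 0) := by fun_prop
    have hψ0 : (fun v : ℝ => max (v - Λ) 0) 0 = 0 := by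
      change max (0 - Λ) 0 = 0
      exact max_eq_right (by linarith)
    have h1 := heq _ hψc hψ0
    have h2 : ∫ x, max (g x - Λ) 0 = 0 := by
      have : ∀ x, max (g x - Λ) 0 = 0 := fun x => max_eq_right (by linarith [hgΛ x])
      simp [this]
    rw [h2] at h1
    have hint := adm_comp hf hψc hψ0
    have h3 := (integral_eq_zero_iff_of_nonneg (μ := volume)
      (f := fun x => max (f x - Λ) 0) (fun x => le_max_right _ _) hint).1 h1
    have h4 : (fun x => max (f x - Λ) 0) = 0 :=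
      (Continuous.ae_eq_iff_eq volume (hψc.comp (adm_cont hf)) continuous_zero).1 h3
    intro x
    have h5 : max (f x - Λ) 0 = 0 := congrFun h4 x
    have h6 := le_max_left (f x - Λ) 0
    rw [h5] at h6
    linarith
  set τ : ℝ := f (R : ℂ) with hτ
  have hτ0 : 0 ≤ τ := hf.nonneg _
  have hτΛ : τ ≤ Λ := hfΛ _
  set Θ : ℝ → ℝ := fun v => max ((Λ - τ) ^ 2 - (Λ - max 0 (min v Λ)) ^ 2) 0 with hΘ
  have hΘc : Continuous Θ := by
    rw [hΘ]
    fun_prop
  have hΘ0 : Θ 0 = 0 := by
    change max ((Λ - τ) ^ 2 - (Λ - max 0 (min 0 Λ)) ^ 2) 0 = 0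
    rw [min_eq_left hΛ, max_self]
    apply max_eq_right
    nlinarith
  have hΘv : ∀ v, 0 ≤ v → v ≤ Λ → Θ v = max ((Λ - τ) ^ 2 - (Λ - v) ^ 2) 0 := by
    intro v h0 h1
    change max ((Λ - τ) ^ 2 - (Λ - max 0 (min v Λ)) ^ 2) 0 = _
    rw [min_eq_left h1, max_eq_right h0]
  have hBfin : volume (Metric.ball (0 : ℂ) R) ≠ ⊤ := measure_ball_lt_top.ne
  have hEfin : volume E ≠ ⊤ := by rw [hvol]; exact hBfin
  have hIg : Integrable (fun x => Θ (g x)) := adm_comp hg hΘc hΘ0
  have hIf : Integrable (fun x => Θ (f x)) := adm_comp hf hΘc hΘ0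
  have hbd : ∀ (S : Set ℂ) (k : ℂ → ℝ), volume S ≠ ⊤ → Continuous k → (∀ x, 0 ≤ k x) →
      (∀ x, k x ≤ Λ) → IntegrableOn (fun x => (Λ - k x) ^ 2) S := by
    intro S k hS hk h0 h1
    have hc : Continuous (fun x => (Λ - k x) ^ 2) := by fun_prop
    refine Measure.integrableOn_of_bounded (M := Λ ^ 2) hS hc.aestronglyMeasurable ?_
    filter_upwards with x
    rw [Real.norm_eq_abs, abs_of_nonneg (sq_nonneg _)]
    have := h0 x
    have := h1 x
    nlinarith
  -- lower bound on `E`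
  have hlow : (volume E).toReal * (Λ - τ) ^ 2 - ∫ x, Θ (g x) ≤ ∫ x in E, (Λ - g x) ^ 2 := by
    have h1 : ∫ x in E, ((Λ - τ) ^ 2 - Θ (g x)) ≤ ∫ x in E, (Λ - g x) ^ 2 := by
      apply setIntegral_mono_on _ (hbd E g hEfin (adm_cont hg) hg.nonneg hgΛ) hE
      · intro x _
        rw [hΘv _ (hg.nonneg x) (hgΛ x)]
        have := le_max_left ((Λ - τ) ^ 2 - (Λ - g x) ^ 2) 0
        linarith
      · exact (integrableOn_const hEfin).sub hIg.integrableOn
    have hcE : IntegrableOn (fun _ : ℂ => (Λ - τ) ^ 2) E := integrableOn_const hEfin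
    rw [integral_sub hcE hIg.integrableOn, setIntegral_const, smul_eq_mul] at h1
    have h2 : ∫ x in E, Θ (g x) ≤ ∫ x, Θ (g x) :=
      setIntegral_le_integral hIg (Filter.Eventually.of_forall fun x => le_max_right _ _)
    have h3 : volume.real E = (volume E).toReal := rfl
    rw [h3] at h1
    linarith
  -- equality on the ball
  have hup : ∫ x in Metric.ball (0 : ℂ) R, (Λ - f x) ^ 2 =
      (volume (Metric.ball (0 : ℂ) R)).toReal * (Λ - τ) ^ 2 - ∫ x, Θ (f x) := by
    have h1 : ∫ x, Θ (f x) = ∫ x in Metric.ball (0 : ℂ) R, Θ (f x) := by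
      symm
      apply setIntegral_eq_integral_of_forall_compl_eq_zero
      intro x hx
      have h2 : R ≤ ‖x‖ := by
        rw [Metric.mem_ball, dist_zero_right, not_lt] at hx
        exact hx
      have h3 : f x ≤ τ := by
        apply hmon
        rw [Complex.norm_real, Real.norm_eq_abs, abs_of_pos hR]
        exact h2
      rw [hΘv _ (hf.nonneg x) (hfΛ x)]
      apply max_eq_right
      nlinarith
    have h4 : ∫ x in Metric.ball (0 : ℂ) R, Θ (f x) =
        ∫ x in Metric.ball (0 : ℂ) R, ((Λ - τ) ^ 2 - (Λ - f x) ^ 2) := by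
      apply setIntegral_congr_fun Metric.isOpen_ball.measurableSet
      intro x hx
      have h2 : ‖x‖ < R := by
        rw [Metric.mem_ball, dist_zero_right] at hx
        exact hx
      have h3 : τ ≤ f x := by
        apply hmon
        rw [Complex.norm_real, Real.norm_eq_abs, abs_of_pos hR]
        exact h2.le
      change Θ (f x) = (Λ - τ) ^ 2 - (Λ - f x) ^ 2
      rw [hΘv _ (hf.nonneg x) (hfΛ x)]
      apply max_eq_left
      have := hfΛ x
      nlinarith
    have hcB : IntegrableOn (fun _ : ℂ => (Λ - τ) ^ 2) (Metric.ball (0 : ℂ) R) :=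
      integrableOn_const hBfin
    rw [h1, h4, integral_sub hcB
      (hbd _ f hBfin (adm_cont hf) hf.nonneg hfΛ), setIntegral_const, smul_eq_mul]
    have h3 : volume.real (Metric.ball (0 : ℂ) R) = (volume (Metric.ball (0 : ℂ) R)).toReal := rfl
    rw [h3]
    ring
  rw [hup, ← hvol, heq Θ hΘc hΘ0]
  exact hlow

end Pool.Agent.RFK.H20
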